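import Pool.Agent.Lib.MP_688fd0_co.TE.Iface4

/-! Module GAD, first part: options of the R-edges. -/

namespace Pool.Agent.Lib.MP_688fd0_co.TE.H9

universe u v w

open Finset

section gen

variable {G : Type u} [Fintype G] [DecidableEq G]

theorem cov {κ : Type v} [Fintype κ] (W : G → Prop) (wt : κ → ℝ) (g : κ → G) (h : G → ℝ)
    (hwt : ∀ k, 0 ≤ wt k) (hh : ∀ x, 0 ≤ h x) (hW : ∀ x, W x → ∃ k, 1 ≤ wt k ∧ g k = x) :
    ∑ x, ind (W x) * h x ≤ ∑ k, wt k * h (g k) := by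
  have h1 : ∀ x, ind (W x) * h x ≤ ∑ k, wt k * ind (g k = x) * h x := by
    intro x
    have hnn : ∀ k, 0 ≤ wt k * ind (g k = x) * h x := fun k =>
      mul_nonneg (mul_nonneg (hwt k) (ind_nonneg _)) (hh x)
    by_cases hx : W x
    · obtain ⟨k, hk1, hk2⟩ := hW x hx
      calc ind (W x) * h x = 1 * h x := by rw [ind_of hx]
        _ ≤ wt k * ind (g k = x) * h x := by
            apply mul_le_mul_of_nonneg_right _ (hh x)
            rw [ind_of hk2, mul_one]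
            exact hk1
        _ ≤ _ := Finset.single_le_sum (f := fun k => wt k * ind (g k = x) * h x)
            (fun k _ => hnn k) (Finset.mem_univ k)
    · rw [ind_not hx, zero_mul]
      exact Finset.sum_nonneg fun k _ => hnn k
  refine (Finset.sum_le_sum fun x _ => h1 x).trans (le_of_eq ?_)
  rw [Finset.sum_comm]
  refine Finset.sum_congr rfl fun k _ => ?_
  rw [Finset.sum_eq_single (g k)]
  · rw [ind_of rfl, mul_one]
  · intro b _ hb
    rw [ind_not (fun h => hb h.symm), mul_zero, zero_mul]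
  · intro h
    exact absurd (Finset.mem_univ _) h

theorem ind_all {n : ℕ} (E : Fin n → Prop) : ind (∀ t, E t) = ∏ t, ind (E t) := by
  by_cases h : ∀ t, E t
  · rw [ind_of h]
    symm
    exact Finset.prod_eq_one fun t _ => ind_of (h t)
  · rw [ind_not h]
    push Not at h
    obtain ⟨t, ht⟩ := h
    symm
    exact Finset.prod_eq_zero (Finset.mem_univ t) (ind_not ht)

theorem Pr_all (hpipr : PIPR_S.{0, v}) {Ω : Type v} [Fintype Ω] (μ : Ω → ℝ) (n : ℕ)
    (E : Ω → Prop) :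
    Pr (piW (fun _ : Fin n => μ)) (fun a => ∀ t, E (a t)) = Pr μ E ^ n := by
  have h1 := hpipr.2 (Fin n) (fun _ => Ω) (fun _ => μ) (fun _ a => ind (E a))
  unfold Ex at h1
  unfold Pr
  rw [Finset.prod_const, Finset.card_univ, Fintype.card_fin] at h1
  rw [← h1]
  refine Finset.sum_congr rfl fun a _ => ?_
  rw [ind_all]

theorem Ex_coord (hpipr : PIPR_S.{v, w}) {ι : Type v} [Fintype ι] [DecidableEq ι]
    {α : ι → Type w} [∀ i, Fintype (α i)] (μ : ∀ i, α i → ℝ) (hμ : ∀ i, IsPr (μ i))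
    (i : ι) (f : α i → ℝ) : Ex (piW μ) (fun ω => f (ω i)) = Ex (μ i) f := by
  have h1 := hpipr.2 ι α μ (fun j a => if h : j = i then f (h ▸ a) else 1)
  have h2 : (fun ω : ∀ i, α i => ∏ j, (if h : j = i then f (h ▸ ω j) else 1)) =
      fun ω => f (ω i) := by
    funext ω
    rw [Finset.prod_eq_single i]
    · simp
    · intro j _ hj
      simp [hj]
    · intro h
      exact absurd (Finset.mem_univ _) h
  rw [h2] at h1
  rw [h1, Finset.prod_eq_single i]
  · simp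
  · intro j _ hj
    simp only [hj, dite_false]
    unfold Ex
    simp only [mul_one]
    exact (hμ j).one
  · intro h
    exact absurd (Finset.mem_univ _) h

theorem Ex_vertex {Ω : Type v} [Fintype Ω] (μ : Ω → ℝ) (X : Ω → G) (h : G → ℝ) :
    Ex μ (fun ω => h (X ω)) = ∑ x, h x * Pr μ (fun ω => X ω = x) := by
  unfold Ex Pr
  simp only [Finset.mul_sum]
  rw [Finset.sum_comm]
  refine Finset.sum_congr rfl fun ω _ => ?_
  rw [Finset.sum_eq_single (X ω)]
  · rw [ind_of rfl]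
    ring
  · intro b _ hb
    rw [ind_not (fun h => hb h.symm)]
    ring
  · intro h
    exact absurd (Finset.mem_univ _) h

theorem Pr_mem {Ω : Type v} [Fintype Ω] (μ : Ω → ℝ) (X : Ω → G) (S : G → Prop) :
    Pr μ (fun ω => S (X ω)) = ∑ x, ind (S x) * Pr μ (fun ω => X ω = x) :=
  Ex_vertex μ X (fun x => ind (S x))

end gen

variable {G : Type u} [Group G] [Fintype G] [DecidableEq G]

/-- Indices: R-edges with their kind. -/
abbrev Idx (c : Ctx G) {N : ℕ} (R : Resv c N) : Type u := (τ : Bool) × {e : G × G // e ∈ R.E τ}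

/-- One block of options. -/
abbrev Blk (c : Ctx G) : Type u := Fin c.T → c.Cfg

/-- Weights of one block. -/
noncomputable def bw (c : Ctx G) {N : ℕ} (R : Resv c N) (i : Idx c R) : Blk c → ℝ :=
  piW (fun _ : Fin c.T => c.Γ i.1 i.2.1)

/-- Load of the options of kind `τ`. -/
noncomputable def Fl (c : Ctx G) {N : ℕ} (R : Resv c N) (τ : Bool) (h : G → ℝ)
    (ω : Idx c R → Blk c) : ℝ :=
  ∑ e : {e : G × G // e ∈ R.E τ}, ∑ t, ∑ p, h (c.vx (ω ⟨τ, e⟩ t) p)

theorem Fl_eq (c : Ctx G) {N : ℕ} (R : Resv c N) (τ : Bool) (h : G → ℝ)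
    (ω : Idx c R → Blk c) :
    Fl c R τ h ω = ∑ i : Idx c R, ind (i.1 = τ) * ∑ t, ∑ p, h (c.vx (ω i t) p) := by
  rw [Fintype.sum_sigma, Finset.sum_eq_single τ]
  · unfold Fl
    refine Finset.sum_congr rfl fun e _ => ?_
    rw [ind_of rfl, one_mul]
  · intro b _ hb
    refine Finset.sum_eq_zero fun e _ => ?_
    rw [ind_not hb, zero_mul]
  · intro h
    exact absurd (Finset.mem_univ _) h

theorem card_pos_le (c : Ctx G) : Fintype.card c.Pos ≤ 20 * c.k ^ 2 := by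
  have h : Fintype.card c.Pos = 6 * c.k + ((3 * c.k - 2) * (6 * c.k) + (6 * c.k - 1)) := by
    simp [Ctx.Pos, Fintype.card_sum, Fintype.card_prod]
  rw [h]
  have hk := c.hk1
  obtain ⟨k, hk'⟩ : ∃ k, c.k = k + 1 := ⟨c.k - 1, by omega⟩
  rw [hk']
  have h1 : (3 * (k + 1) - 2) * (6 * (k + 1)) ≤ (3 * (k + 1)) * (6 * (k + 1)) - 12 * (k + 1) := by
    rw [Nat.sub_mul]
    apply Nat.sub_le_sub_left
    omega
  have h2 : 6 * (k + 1) - 1 ≤ 6 * (k + 1) := Nat.sub_le _ _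
  have h3 : (3 * (k + 1)) * (6 * (k + 1)) = 18 * (k + 1) ^ 2 := by ring
  have h4 : 12 * (k + 1) ≤ 18 * (k + 1) ^ 2 := by nlinarith
  rw [h3] at h1
  generalize (3 * (k + 1) - 2) * (6 * (k + 1)) = A at h1 ⊢
  generalize (k + 1) ^ 2 = B at h1 h4 ⊢
  omega

theorem TP_le (hnum : NUM_S.{u}) (c : Ctx G) :
    (c.T : ℝ) * Fintype.card c.Pos ≤ c.X ∧ (Fintype.card c.Pos : ℝ) ^ 2 ≤ c.X := by
  obtain ⟨n1, n2, n3, n4, n5, n6, n7, n8, n9, n10, n11, n12, n13, n14⟩ := hnum G c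
  have hX1 : 1 ≤ c.X := by linarith [show (1 : ℝ) < 10 ^ 6 by norm_num]
  have hX0 : 0 < c.X := by linarith
  have hk1 : (1 : ℝ) ≤ c.k := by exact_mod_cast c.hk1
  have hT1 : (1 : ℝ) ≤ c.T := by exact_mod_cast c.hT1
  have hP : (Fintype.card c.Pos : ℝ) ≤ 20 * (c.k : ℝ) ^ 2 := by
    exact_mod_cast card_pos_le c
  have hP0 : (0 : ℝ) ≤ Fintype.card c.Pos := Nat.cast_nonneg _
  have a1 : (10 ^ 6 * (c.k : ℝ)) ^ 4 ≤ c.X := by
    refine le_trans ?_ n2
    apply pow_le_pow_right₀ _ (by norm_num)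
    linarith
  have a2 : (10 ^ 6 * (c.k : ℝ)) ^ 200 ≤ c.X := n2
  have a3 : (10 ^ 6 * (c.T : ℝ)) ^ 200 ≤ c.X := n3
  constructor
  · -- T * P squared is at most X ^ 2
    have h1 : ((c.T : ℝ)) ^ 2 ≤ c.X := by
      refine le_trans ?_ a3
      have : (c.T : ℝ) ^ 2 ≤ (10 ^ 6 * c.T) ^ 2 := by
        apply pow_le_pow_left₀ (by linarith)
        linarith
      refine this.trans ?_
      apply pow_le_pow_right₀ _ (by norm_num)
      linarith
    have h2 : (Fintype.card c.Pos : ℝ) ^ 2 ≤ c.X := by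
      calc (Fintype.card c.Pos : ℝ) ^ 2 ≤ (20 * (c.k : ℝ) ^ 2) ^ 2 := pow_le_pow_left₀ hP0 hP 2
        _ ≤ (10 ^ 6 * (c.k : ℝ)) ^ 4 := by
            have : (10 ^ 6 * (c.k : ℝ)) ^ 4 = 10 ^ 24 * (c.k : ℝ) ^ 4 := by ring
            rw [this]
            have h4 : 0 ≤ (c.k : ℝ) ^ 4 := by positivity
            nlinarith
        _ ≤ c.X := a1
    have h3 : ((c.T : ℝ) * Fintype.card c.Pos) ^ 2 ≤ c.X ^ 2 := by
      rw [mul_pow, sq c.X]
      apply mul_le_mul h1 h2 (by positivity) hX0.le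
    exact (pow_le_pow_iff_left₀ (by positivity) hX0.le (by norm_num)).1 h3
  · calc (Fintype.card c.Pos : ℝ) ^ 2 ≤ (20 * (c.k : ℝ) ^ 2) ^ 2 := pow_le_pow_left₀ hP0 hP 2
      _ ≤ (10 ^ 6 * (c.k : ℝ)) ^ 4 := by
          have : (10 ^ 6 * (c.k : ℝ)) ^ 4 = 10 ^ 24 * (c.k : ℝ) ^ 4 := by ring
          rw [this]
          have h4 : 0 ≤ (c.k : ℝ) ^ 4 := by positivity
          nlinarith
      _ ≤ c.X := a1

end Pool.Agent.Lib.MP_688fd0_co.TE.H9
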