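import Pool.Agent.Lib.MP_688fd0_co.TE.Iface1

/-!
# Theorem E, modules PIPR and PUSH
-/

namespace Pool.Agent.Lib.MP_688fd0_co.TE.H9

open Pool.Agent.Lib.MP_688fd0_co.TE

universe u v w

theorem sum_prod {ι : Type u} [Fintype ι] [DecidableEq ι] (α : ι → Type v) [∀ i, Fintype (α i)]
    (f : ∀ i, α i → ℝ) : ∑ ω : ∀ i, α i, ∏ i, f i (ω i) = ∏ i, ∑ a, f i a := by
  rw [Finset.prod_univ_sum, Fintype.piFinset_univ]

/-- Module PIPR. -/
theorem pipr : PIPR_S.{u, v} := by
  constructor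
  · intro ι _ _ α _ μ hμ
    refine ⟨fun ω => Finset.prod_nonneg fun i _ => (hμ i).nn _, ?_⟩
    unfold piW
    rw [sum_prod]
    exact Finset.prod_eq_one fun i _ => (hμ i).one
  · intro ι _ _ α _ μ f
    unfold Ex piW
    rw [← sum_prod]
    refine Finset.sum_congr rfl fun ω _ => ?_
    rw [Finset.prod_mul_distrib]

/-- Module PUSH. -/
theorem push : PUSH_S.{u, v} := by
  intro ι _ _ α β _ _ μ ν X _ hν F
  have h1 : ∀ b : ∀ i, β i, piW ν b = ∑ ω : ∀ i, α i, ∏ i, (μ i (ω i) * ind (X i (ω i) = b i)) := by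
    intro b
    rw [sum_prod α (fun i a => μ i a * ind (X i a = b i))]
    unfold piW
    refine Finset.prod_congr rfl fun i _ => ?_
    rw [← hν i (b i)]
    rfl
  unfold Ex
  have h2 : ∀ b : ∀ i, β i, piW ν b * F b =
      ∑ ω : ∀ i, α i, piW μ ω * ((∏ i, ind (X i (ω i) = b i)) * F b) := by
    intro b
    rw [h1, Finset.sum_mul]
    refine Finset.sum_congr rfl fun ω _ => ?_
    rw [Finset.prod_mul_distrib, mul_assoc]
    rfl
  rw [Finset.sum_congr rfl fun b _ => h2 b, Finset.sum_comm]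
  refine Finset.sum_congr rfl fun ω _ => ?_
  rw [← Finset.mul_sum]
  congr 1
  classical
  rw [Finset.sum_eq_single (fun i => X i (ω i))]
  · rw [Finset.prod_eq_one fun i _ => ind_of rfl, one_mul]
  · intro b _ hb
    obtain ⟨i, hi⟩ : ∃ i, X i (ω i) ≠ b i := by
      by_contra hcon
      refine hb (funext fun i => ?_)
      by_contra h
      exact hcon ⟨i, fun e => h e.symm⟩
    rw [Finset.prod_eq_zero (Finset.mem_univ i) (ind_not hi), zero_mul]
  · intro h
    exact absurd (Finset.mem_univ _) h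

end Pool.Agent.Lib.MP_688fd0_co.TE.H9
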