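import Pool.Agent.Lib.MP_688fd0_co.TE.H9.ResB

/-! Module RES. -/

namespace Pool.Agent.Lib.MP_688fd0_co.TE.H9

universe u v w

open Finset

variable {G : Type u} [Group G] [Fintype G] [DecidableEq G]

/-- The law on R-links. -/
noncomputable def SO.Rl {c : Ctx G} {N : ℕ} {τ : Bool} {W : G → Prop} (S : SO c N τ W)
    (x y : G) (f : Fin (3 * c.k) → G × G) : ℝ :=
  S.M.R S.ω W (c.X ^ 5 * c.q τ) (S.tc x y) x y (List.ofFn (fun j => phi.symm (f j)))

theorem SO.Rl_law {c : Ctx G} {N : ℕ} {τ : Bool} {W : G → Prop} (S : SO c N τ W)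
    (hnum : NUM_S.{u}) (hsuml : SUML_S.{u, 0}) (hrlaw : RLAW_S.{u, u}) {x y : G} (hxy : x ≠ y)
    (hadm : c.adm τ true 9 x y) : IsPr (S.Rl x y) := by
  obtain ⟨n1, n2, n3, n4, n5, n6, n7, n8, n9, n10, n11, n12, n13, n14⟩ := hnum G c
  have hX1 : 1 ≤ c.X := by linarith [show (1 : ℝ) < 10 ^ 6 by norm_num]
  obtain ⟨l1, l2⟩ := S.low x y hxy hadm
  obtain ⟨r1, r2, _⟩ := hrlaw G G (3 * c.k) S.M c.X (c.q τ) c.T W S.ω (S.tc x y) x y hX1 (n7 τ)
    l1 l2
  refine ⟨fun f => r1 _, ?_⟩
  have := sum_edges (n := 3 * c.k) hsuml (S.M.R S.ω W (c.X ^ 5 * c.q τ) (S.tc x y) x y)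
    (fun _ => 1) (fun _ => 1) (fun _ => rfl)
  simp only [mul_one] at this
  rw [← r2, ← this]
  rfl

theorem pw_ne (c : Ctx G) {τ : Bool} {ζ : ℝ} (M : LM G G (3 * c.k)) (hM : c.IsRes τ ζ M) :
    ∀ (l : List (G × G)) (j : ℕ) (x y : G), M.pw j x l y ≠ 0 →
      (∀ s, l[0]? = some s → x⁻¹ * s.1 ∈ Lt c.B c.C τ) ∧
      (∀ i s s', l[i]? = some s → l[i + 1]? = some s' → (s.1 * s.2)⁻¹ * s'.1 ∈ Lt c.B c.C τ) ∧
      (∀ s, l[l.length - 1]? = some s → (s.1 * s.2)⁻¹ * y ∈ Lt c.B c.C τ) := by
  intro l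
  induction l with
  | nil =>
    intro j x y _
    simp
  | cons s l ih =>
    intro j x y h
    simp only [LM.pw] at h
    have h1 := left_ne_zero_of_mul (left_ne_zero_of_mul h)
    have h2 := right_ne_zero_of_mul h
    rw [hM.C] at h1
    obtain ⟨i1, i2, i3⟩ := ih (j + 1) _ y h2
    refine ⟨?_, ?_, ?_⟩
    · intro s' hs'
      simp only [List.getElem?_cons_zero, Option.some.injEq] at hs'
      subst hs'
      exact cO_ne h1
    · intro i s1 s2 hs1 hs2
      cases i with
      | zero =>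
        simp only [List.getElem?_cons_zero, Option.some.injEq] at hs1
        subst hs1
        simp only [List.getElem?_cons_succ] at hs2
        have := i1 s2 hs2
        rwa [hM.ex] at this
      | succ i =>
        simp only [List.getElem?_cons_succ] at hs1 hs2
        exact i2 i s1 s2 hs1 hs2
    · intro s' hs'
      cases l with
      | nil =>
        simp only [List.length_cons, List.length_nil, zero_add, Nat.sub_self,
          List.getElem?_cons_zero, Option.some.injEq] at hs'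
        subst hs'
        simp only [LM.pw] at h2
        rw [hM.C, hM.ex] at h2
        exact cO_ne h2
      | cons s2 l =>
        apply i3
        simpa using hs'

theorem xw_ne {a : ℕ} (M : LM G G a) (ω : Fld a G G) :
    ∀ (l : List (G × G)) (j : ℕ), M.xw ω j l ≠ 0 →
      ∀ i s, l[i]? = some s → val ω (j + i) s.1 = some s.2 := by
  intro l
  induction l with
  | nil => intro j _ i s hs; simp at hs
  | cons s l ih =>
    intro j h i s' hs'
    simp only [LM.xw] at h
    have h1 := left_ne_zero_of_mul h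
    have h2 := right_ne_zero_of_mul h
    cases i with
    | zero =>
      simp only [List.getElem?_cons_zero, Option.some.injEq] at hs'
      subst hs'
      by_contra hc
      rw [add_zero] at hc
      rw [ind_not hc, zero_div] at h1
      exact h1 rfl
    | succ i =>
      simp only [List.getElem?_cons_succ] at hs'
      have := ih (j + 1) h2 i s' hs'
      rwa [show j + (i + 1) = j + 1 + i by omega]

theorem SO.Rl_supp {c : Ctx G} {N : ℕ} {τ : Bool} {W : G → Prop} (S : SO c N τ W)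
    (hnum : NUM_S.{u}) (hrlaw : RLAW_S.{u, u}) {x y : G} (hxy : x ≠ y)
    (hadm : c.adm τ true 9 x y) (z : Fin (3 * c.k) → G × G) (hz : S.Rl x y z ≠ 0) :
    (∀ j, S.RE (z j)) ∧ Function.Injective z ∧
    (∀ j, (z j).1 ≠ x ∧ (z j).1 ≠ y ∧ (z j).2 ≠ x ∧ (z j).2 ≠ y) ∧
    (∀ j : Fin (3 * c.k), (j : ℕ) = 0 → x⁻¹ * (z j).1 ∈ Lt c.B c.C τ) ∧
    (∀ j j' : Fin (3 * c.k), (j' : ℕ) = j + 1 → (z j).2⁻¹ * (z j').1 ∈ Lt c.B c.C τ) ∧
    (∀ j : Fin (3 * c.k), (j : ℕ) + 1 = 3 * c.k → (z j).2⁻¹ * y ∈ Lt c.B c.C τ) := by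
  obtain ⟨n1, n2, n3, n4, n5, n6, n7, n8, n9, n10, n11, n12, n13, n14⟩ := hnum G c
  have hX1 : 1 ≤ c.X := by linarith [show (1 : ℝ) < 10 ^ 6 by norm_num]
  obtain ⟨l1, l2⟩ := S.low x y hxy hadm
  obtain ⟨_, _, r3, _⟩ := hrlaw G G (3 * c.k) S.M c.X (c.q τ) c.T W S.ω (S.tc x y) x y hX1 (n7 τ)
    l1 l2
  set l : List (G × G) := List.ofFn (fun j => phi.symm (z j)) with hl
  have hll : l.length = 3 * c.k := by rw [hl, List.length_ofFn]
  obtain ⟨g1, g2, g3⟩ := r3 l hll hz
  have hget : ∀ j : Fin (3 * c.k), l[(j : ℕ)]? = some (phi.symm (z j)) := by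
    intro j
    rw [hl, List.getElem?_ofFn, dif_pos j.2]
  have hval : ∀ j : Fin (3 * c.k), val (S.ω (S.tc x y)) (j : ℕ) (z j).1 =
      some ((z j).1⁻¹ * (z j).2) := by
    intro j
    have := xw_ne S.M _ l 0 g3 j _ (hget j)
    rw [zero_add] at this
    exact this
  have hcl := g1.1
  obtain ⟨p1, p2, p3⟩ := pw_ne c S.M S.res l 0 x y g2
  have hex : ∀ j : Fin (3 * c.k), S.M.ex (phi.symm (z j)).1 (phi.symm (z j)).2 = (z j).2 := by
    intro j
    rw [S.res.ex]
    simp [phi]
  have hmm : ∀ j : Fin (3 * c.k), (phi.symm (z j)).1 * (phi.symm (z j)).2 = (z j).2 := by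
    intro j
    simp [phi]
  have hvw : ∀ (j : Fin (3 * c.k)) (w : G), w = (z j).1 ∨ w = (z j).2 →
      ((phi.symm (z j)).1 = w ∨ S.M.ex (phi.symm (z j)).1 (phi.symm (z j)).2 = w) := by
    intro j w hw
    rw [hex]
    rcases hw with rfl | rfl
    · exact Or.inl rfl
    · exact Or.inr rfl
  refine ⟨?_, ?_, ?_, ?_, ?_, ?_⟩
  · intro j
    refine ⟨S.tc x y, j, hval j, ?_⟩
    intro w hw
    obtain ⟨c1, c2, c3, c4, c5⟩ := hcl j _ (hget j) w (hvw j w hw)
    refine ⟨c1, c4, ?_⟩
    intro j' u s hs hus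
    have := c5 j' u s hs (by rw [S.res.ex]; exact hus)
    refine ⟨this.1, ?_, ?_⟩
    · exact congrArg Prod.fst this.2
    · exact congrArg Prod.snd this.2
  · intro j j' hjj
    obtain ⟨c1, c2, c3, c4, c5⟩ := hcl j _ (hget j) _ (hvw j _ (Or.inl rfl))
    have := c5 j' (z j').1 _ (hval j') (Or.inl (by rw [hjj]))
    exact (Fin.ext this.1).symm
  · intro j
    obtain ⟨c1, c2, c3, c4, c5⟩ := hcl j _ (hget j) _ (hvw j _ (Or.inl rfl))
    obtain ⟨d1, d2, d3, d4, d5⟩ := hcl j _ (hget j) _ (hvw j _ (Or.inr rfl))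
    exact ⟨c2, c3, d2, d3⟩
  · intro j hj
    have h1 := hget j
    rw [hj] at h1
    exact p1 (phi.symm (z j)) h1
  · intro j j' hj'
    have h1 := hget j
    have h2 := hget j'
    rw [hj'] at h2
    have := p2 _ _ _ h1 h2
    rwa [hmm] at this
  · intro j hj
    have h1 := hget j
    have h2 : (j : ℕ) = l.length - 1 := by omega
    rw [h2] at h1
    have := p3 _ h1
    rwa [hmm] at this

theorem Pr_ex_le (hsuml : SUML_S.{u, 0}) {n : ℕ} (R : List (G × G) → ℝ)
    (hR : ∀ z, 0 ≤ R z) (e : G × G) :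
    Pr (fun f : Fin n → G × G => R (List.ofFn (fun j => phi.symm (f j)))) (fun z => ∃ j, z j = e) ≤
      ∑ j : Fin n, sumL n (fun z => R z * ind (z[(j : ℕ)]? = some (phi.symm e))) := by
  unfold Pr
  calc ∑ f : Fin n → G × G, R (List.ofFn (fun j => phi.symm (f j))) * ind (∃ j, f j = e)
      ≤ ∑ f : Fin n → G × G, ∑ j, R (List.ofFn (fun j => phi.symm (f j))) * ind (f j = e) := by
        refine Finset.sum_le_sum fun f _ => ?_
        rw [← Finset.mul_sum]
        apply mul_le_mul_of_nonneg_left _ (hR _)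
        by_cases h : ∃ j, f j = e
        · obtain ⟨j, hj⟩ := h
          calc ind (∃ j, f j = e) ≤ 1 := ind_le_one _
            _ = ind (f j = e) := (ind_of hj).symm
            _ ≤ _ := Finset.single_le_sum (f := fun j => ind (f j = e))
              (fun j _ => ind_nonneg _) (Finset.mem_univ j)
        · rw [ind_not h]
          exact Finset.sum_nonneg fun j _ => ind_nonneg _
    _ = ∑ j : Fin n, ∑ f : Fin n → G × G, R (List.ofFn (fun j => phi.symm (f j))) *
          ind (f j = e) := Finset.sum_comm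
    _ = _ := by
        refine Finset.sum_congr rfl fun j _ => ?_
        apply sum_edges hsuml R (fun f => ind (f j = e))
          (fun z => ind (z[(j : ℕ)]? = some (phi.symm e)))
        intro z
        congr 1
        rw [List.getElem?_ofFn, dif_pos j.2]
        simp only [Option.some.injEq, eq_iff_iff, Fin.eta]
        rw [Equiv.eq_symm_apply]

theorem H0_bd (c : Ctx G) {τ : Bool} {M : LM G G (3 * c.k)} (hM : c.IsRes τ (c.ζ τ) M) : M.H0 ^ 2 = 4 * (if τ then c.X ^ 6000 else c.X ^ 800) := by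
  rw [hM.H0]
  unfold Ctx.ζ
  split
  · rw [div_div_eq_mul_div, div_one, mul_pow, ← pow_mul]
    norm_num
  · rw [div_div_eq_mul_div, div_one, mul_pow, ← pow_mul]
    norm_num

theorem res (hnum : NUM_S.{u}) (hpks : PKS_S.{u}) (hresm : RESM_S.{u}) (hphr : PHR_S.{u})
    (hstage : STAGE_S.{u, u, u}) (hsuml : SUML_S.{u, 0}) (hrlaw : RLAW_S.{u, u})
    (hloads : LOADS_S.{u, u}) : RES_S.{u} := by
  classical
  intro G _ _ _ c N hN1 hN
  obtain ⟨n1, n2, n3, n4, n5, n6, n7, n8, n9, n10, n11, n12, n13, n14⟩ := hnum G c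
  obtain ⟨k1, k2, k3, k4, k5, k6, k7, k8, k9, k10, k11, k12, k13, k14⟩ := hpks G c
  have hX0 : 0 < c.X := by linarith [show (0 : ℝ) < 10 ^ 6 by norm_num]
  have hX1 : 1 ≤ c.X := by linarith [show (1 : ℝ) < 10 ^ 6 by norm_num]
  -- first stage
  obtain ⟨S0⟩ := stg hnum hpks hresm hphr hstage c N hN false (fun _ => False) (by
    intro M hM y
    simp only [ind_not (fun h : False => h), zero_mul, Finset.sum_const_zero]
    positivity)
  -- second stage
  obtain ⟨S1⟩ := stg hnum hpks hresm hphr hstage c N hN true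
    (fun w => ∃ t, S0.M.tch (S0.ω t) w) (by
    intro M hM y
    have hMN : c.TK N M := k10 1 N M hN1 hM
    have hM0 : ∀ v, 0 ≤ M y v := fun v => (k7 1 M hM.1).nn _ _
    have h1 : ∑ w, ind (∃ t, S0.M.tch (S0.ω t) w) * M y w ≤
        ∑ t, S0.M.tw (fun v => M y v) (S0.ω t) := by
      have h2 : ∀ w, ind (∃ t, S0.M.tch (S0.ω t) w) * M y w ≤
          ∑ t, ∑ j, ∑ u, ∑ e, ind (S0.ω t j u = some e) *
            (ind (u = w) * M y w + ind (S0.M.ex u e = w) * M y w) := by
        intro w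
        have hnn : ∀ t j u e, 0 ≤ ind (S0.ω t j u = some e) *
            (ind (u = w) * M y w + ind (S0.M.ex u e = w) * M y w) := fun t j u e =>
          mul_nonneg (ind_nonneg _) (add_nonneg (mul_nonneg (ind_nonneg _) (hM0 _))
            (mul_nonneg (ind_nonneg _) (hM0 _)))
        by_cases h : ∃ t, S0.M.tch (S0.ω t) w
        · obtain ⟨t, j, u, e, h3, h4⟩ := h
          unfold val at h3
          split at h3
          · rename_i hj
            calc ind (∃ t, S0.M.tch (S0.ω t) w) * M y w ≤ 1 * M y w :=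
                  mul_le_mul_of_nonneg_right (ind_le_one _) (hM0 _)
              _ ≤ ind (S0.ω t ⟨j, hj⟩ u = some e) *
                  (ind (u = w) * M y w + ind (S0.M.ex u e = w) * M y w) := by
                  rw [ind_of h3, one_mul, one_mul]
                  rcases h4 with h4 | h4
                  · rw [ind_of h4, one_mul]
                    have := mul_nonneg (ind_nonneg (S0.M.ex u e = w)) (hM0 w)
                    linarith
                  · rw [ind_of h4, one_mul]
                    have := mul_nonneg (ind_nonneg (u = w)) (hM0 w)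
                    linarith
              _ ≤ ∑ e, _ := Finset.single_le_sum (f := fun e => ind (S0.ω t ⟨j, hj⟩ u = some e) *
                  (ind (u = w) * M y w + ind (S0.M.ex u e = w) * M y w))
                  (fun e _ => hnn t ⟨j, hj⟩ u e) (Finset.mem_univ e)
              _ ≤ ∑ u, ∑ e, _ := Finset.single_le_sum (f := fun u => ∑ e,
                  ind (S0.ω t ⟨j, hj⟩ u = some e) *
                  (ind (u = w) * M y w + ind (S0.M.ex u e = w) * M y w))
                  (fun u _ => Finset.sum_nonneg fun e _ => hnn t ⟨j, hj⟩ u e) (Finset.mem_univ u)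
              _ ≤ ∑ j, ∑ u, ∑ e, _ := Finset.single_le_sum (f := fun j => ∑ u, ∑ e,
                  ind (S0.ω t j u = some e) *
                  (ind (u = w) * M y w + ind (S0.M.ex u e = w) * M y w))
                  (fun j _ => Finset.sum_nonneg fun u _ => Finset.sum_nonneg fun e _ =>
                    hnn t j u e) (Finset.mem_univ _)
              _ ≤ _ := Finset.single_le_sum (f := fun t => ∑ j, ∑ u, ∑ e,
                  ind (S0.ω t j u = some e) *
                  (ind (u = w) * M y w + ind (S0.M.ex u e = w) * M y w))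
                  (fun t _ => Finset.sum_nonneg fun j _ => Finset.sum_nonneg fun u _ =>
                    Finset.sum_nonneg fun e _ => hnn t j u e) (Finset.mem_univ _)
          · exact absurd h3 (by simp)
        · rw [ind_not h, zero_mul]
          exact Finset.sum_nonneg fun t _ => Finset.sum_nonneg fun j _ =>
            Finset.sum_nonneg fun u _ => Finset.sum_nonneg fun e _ => hnn t j u e
      refine (Finset.sum_le_sum fun w _ => h2 w).trans (le_of_eq ?_)
      rw [Finset.sum_comm]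
      refine Finset.sum_congr rfl fun t _ => ?_
      unfold LM.tw
      rw [Finset.sum_comm]
      refine Finset.sum_congr rfl fun j _ => ?_
      rw [Finset.sum_comm]
      refine Finset.sum_congr rfl fun u _ => ?_
      rw [Finset.sum_comm]
      refine Finset.sum_congr rfl fun e _ => ?_
      rw [← Finset.mul_sum]
      congr 1
      rw [Finset.sum_add_distrib]
      have hone : ∀ a : G, ∑ w, ind (a = w) * M y w = M y a := by
        intro a
        rw [Finset.sum_eq_single a]
        · rw [ind_of rfl, one_mul]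
        · intro b _ hb
          rw [ind_not (fun h => hb h.symm), zero_mul]
        · intro h
          exact absurd (Finset.mem_univ _) h
      rw [hone, hone]
    refine h1.trans ((S0.tw M hMN y).trans ?_)
    unfold Ctx.ζ
    simp only [Bool.false_eq_true, if_false]
    have e1 : c.X * (2 * (1 / c.X ^ 400)) = 2 * (1 / c.X ^ 399) := by
      rw [show c.X ^ 400 = c.X * c.X ^ 399 by ring]
      field_simp
    rw [e1]
    have e2 : 1 / c.X ^ 3 = c.X ^ 396 * (1 / c.X ^ 399) := by
      rw [show c.X ^ 399 = c.X ^ 396 * c.X ^ 3 by ring]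
      field_simp
    rw [e2]
    apply mul_le_mul_of_nonneg_right _ (by positivity)
    have : c.X ≤ c.X ^ 396 := le_self_pow₀ hX1 (by norm_num)
    linarith [show (2 : ℝ) ≤ 10 ^ 6 by norm_num])
  -- numerics
  have hk12 : 12 * (c.k : ℝ) ≤ c.X := by
    have h1 : 12 * (c.k : ℝ) ≤ 10 ^ 6 * c.k := by
      have : (0 : ℝ) ≤ c.k := Nat.cast_nonneg _
      linarith
    have h2 : (1 : ℝ) ≤ 10 ^ 6 * c.k := by
      have : (1 : ℝ) ≤ c.k := by exact_mod_cast c.hk1
      linarith
    have h3 : 10 ^ 6 * (c.k : ℝ) ≤ (10 ^ 6 * c.k) ^ 200 := le_self_pow₀ h2 (by norm_num)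
    linarith
  have hTX : (c.T : ℝ) ≤ c.X := by
    have h1 : (c.T : ℝ) ≤ 10 ^ 6 * c.T := by
      have : (0 : ℝ) ≤ c.T := Nat.cast_nonneg _
      linarith
    have h2 : (1 : ℝ) ≤ 10 ^ 6 * c.T := by
      have : (1 : ℝ) ≤ c.T := by exact_mod_cast c.hT1
      linarith
    have h3 : 10 ^ 6 * (c.T : ℝ) ≤ (10 ^ 6 * c.T) ^ 200 := le_self_pow₀ h2 (by norm_num)
    linarith
  -- general facts on one stage
  have hr2 : ∀ (τ : Bool) (W : G → Prop) (S : SO c N τ W) (x y : G), x ≠ y →
      c.adm τ true 9 x y → ∀ e, Pr (S.Rl x y) (fun z => ∃ j, z j = e) ≤ c.X ^ 6010 / c.b := by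
    intro τ W S x y hxy hadm e
    obtain ⟨l1, l2⟩ := S.low x y hxy hadm
    have hR := (hrlaw G G (3 * c.k) S.M c.X (c.q τ) c.T W S.ω (S.tc x y) x y hX1 (n7 τ) l1 l2).1
    refine (Pr_ex_le hsuml _ hR e).trans ?_
    have hL := (hloads G G (3 * c.k) S.M c.X (c.q τ) c.T W S.ω S.tc
      (fun x y => x ≠ y ∧ c.adm τ true 9 x y) n1 (n7 τ) S.mass
      (fun x y h => S.low x y h.1 h.2)).1 x y ⟨hxy, hadm⟩
    refine (Finset.sum_le_sum fun (j : Fin (3 * c.k)) _ => hL j (phi.symm e) j.2).trans ?_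
    rw [Finset.sum_const, Finset.card_univ, Fintype.card_fin, nsmul_eq_mul, S.res.b,
      H0_bd c S.res, ← mul_div_assoc]
    apply div_le_div_of_nonneg_right _ n8.le
    push_cast
    have e1 : (if τ then c.X ^ 6000 else c.X ^ 800) ≤ c.X ^ 6000 := by
      split
      · exact le_rfl
      · exact pow_le_pow_right₀ hX1 (by norm_num)
    have hpos : 0 ≤ c.X ^ 8 := by positivity
    calc 3 * (c.k : ℝ) * (c.X ^ 8 * (4 * (if τ then c.X ^ 6000 else c.X ^ 800)))
        = (12 * c.k) * (c.X ^ 8 * (if τ then c.X ^ 6000 else c.X ^ 800)) := by ring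
      _ ≤ c.X * (c.X ^ 8 * c.X ^ 6000) := by
          apply mul_le_mul hk12 (mul_le_mul_of_nonneg_left e1 hpos) _ hX0.le
          apply mul_nonneg hpos
          split <;> positivity
      _ = c.X ^ 6009 := by ring
      _ ≤ c.X ^ 6010 := pow_le_pow_right₀ hX1 (by norm_num)
  have hr3 : ∀ (τ : Bool) (W : G → Prop) (S : SO c N τ W) (π : G → G → ℝ) (p : ℝ),
      (∀ x y, 0 ≤ π x y) → (∀ x y, π x y ≠ 0 → x ≠ y ∧ c.adm τ true 9 x y) →
      (∀ x, ∑ y, π x y ≤ p) → (∀ y, ∑ x, π x y ≤ p) → ∀ e,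
      ∑ x, ∑ y, π x y * Pr (S.Rl x y) (fun z => ∃ j, z j = e) ≤ p * c.Lam τ := by
    intro τ W S π p hπ0 hπ hp1 hp2 e
    have hp : 0 ≤ p := (Finset.sum_nonneg fun y _ => hπ0 1 y).trans (hp1 1)
    have hL := (hloads G G (3 * c.k) S.M c.X (c.q τ) c.T W S.ω S.tc
      (fun x y => x ≠ y ∧ c.adm τ true 9 x y) n1 (n7 τ) S.mass
      (fun x y h => S.low x y h.1 h.2)).2 π p hπ0 hπ hp1 hp2
    have step : ∀ x y, π x y * Pr (S.Rl x y) (fun z => ∃ j, z j = e) ≤
        ∑ t, ∑ j : Fin (3 * c.k), π x y * ind (S.tc x y = t) *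
          sumL (3 * c.k) (fun z => S.M.R S.ω W (c.X ^ 5 * c.q τ) t x y z *
            ind (z[(j : ℕ)]? = some (phi.symm e))) := by
      intro x y
      by_cases h0 : π x y = 0
      · simp [h0]
      obtain ⟨hxy, hadm⟩ := hπ x y h0
      obtain ⟨l1, l2⟩ := S.low x y hxy hadm
      have hR := (hrlaw G G (3 * c.k) S.M c.X (c.q τ) c.T W S.ω (S.tc x y) x y hX1 (n7 τ) l1 l2).1
      rw [Finset.sum_eq_single (S.tc x y)]
      · rw [ind_of rfl, mul_one, ← Finset.mul_sum]
        exact mul_le_mul_of_nonneg_left (Pr_ex_le hsuml _ hR e) (hπ0 x y)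
      · intro t _ ht
        apply Finset.sum_eq_zero
        intro j _
        rw [ind_not (fun h => ht h.symm), mul_zero, zero_mul]
      · intro h
        exact absurd (Finset.mem_univ _) h
    calc ∑ x, ∑ y, π x y * Pr (S.Rl x y) (fun z => ∃ j, z j = e)
        ≤ ∑ x, ∑ y, ∑ t, ∑ j : Fin (3 * c.k), π x y * ind (S.tc x y = t) *
          sumL (3 * c.k) (fun z => S.M.R S.ω W (c.X ^ 5 * c.q τ) t x y z *
            ind (z[(j : ℕ)]? = some (phi.symm e))) :=
          Finset.sum_le_sum fun x _ => Finset.sum_le_sum fun y _ => step x y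
      _ = ∑ t, ∑ j : Fin (3 * c.k), ∑ x, ∑ y, π x y * ind (S.tc x y = t) *
          sumL (3 * c.k) (fun z => S.M.R S.ω W (c.X ^ 5 * c.q τ) t x y z *
            ind (z[(j : ℕ)]? = some (phi.symm e))) := by
          have c1 : ∀ x : G, ∑ y, ∑ t, ∑ j : Fin (3 * c.k), π x y * ind (S.tc x y = t) *
              sumL (3 * c.k) (fun z => S.M.R S.ω W (c.X ^ 5 * c.q τ) t x y z *
              ind (z[(j : ℕ)]? = some (phi.symm e))) =
              ∑ t, ∑ j : Fin (3 * c.k), ∑ y, π x y * ind (S.tc x y = t) *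
              sumL (3 * c.k) (fun z => S.M.R S.ω W (c.X ^ 5 * c.q τ) t x y z *
              ind (z[(j : ℕ)]? = some (phi.symm e))) := by
            intro x
            rw [Finset.sum_comm]
            exact Finset.sum_congr rfl fun t _ => Finset.sum_comm
          rw [Finset.sum_congr rfl fun x _ => c1 x, Finset.sum_comm]
          exact Finset.sum_congr rfl fun t _ => Finset.sum_comm
      _ ≤ ∑ t : Fin c.T, ∑ j : Fin (3 * c.k), p * (c.X ^ 8 * S.M.H0 ^ 2) :=
          Finset.sum_le_sum fun t _ => Finset.sum_le_sum fun (j : Fin (3 * c.k)) _ =>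
            hL t j (phi.symm e) j.2
      _ = (c.T : ℝ) * (p * ((12 * c.k) * (c.X ^ 8 * (if τ then c.X ^ 6000 else c.X ^ 800)))) := by
          rw [H0_bd c S.res]
          simp only [Finset.sum_const, Finset.card_univ, Fintype.card_fin, nsmul_eq_mul]
          push_cast
          ring
      _ ≤ c.X * (p * (c.X * (c.X ^ 8 * (if τ then c.X ^ 6000 else c.X ^ 800)))) := by
          have hnn : 0 ≤ c.X ^ 8 * (if τ then c.X ^ 6000 else c.X ^ 800) := by
            apply mul_nonneg (by positivity)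
            split <;> positivity
          apply mul_le_mul hTX _ _ hX0.le
          · apply mul_le_mul_of_nonneg_left _ hp
            exact mul_le_mul_of_nonneg_right hk12 hnn
          · apply mul_nonneg hp
            apply mul_nonneg _ hnn
            positivity
      _ = p * c.Lam τ := by
          unfold Ctx.Lam
          split <;> ring
  refine ⟨{
    E := fun τ => if τ then S1.E else S0.E
    Rl := fun τ => if τ then S1.Rl else S0.Rl
    lett := ?_
    disj := ?_
    light := ?_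
    law := ?_
    supp := ?_
    r2 := ?_
    r3 := ?_ }⟩
  · intro τ e he
    cases τ
    · exact S0.re_lett ((S0.mem_E e).1 he)
    · exact S1.re_lett ((S1.mem_E e).1 he)
  · have hgen : ∀ (w : G) (τ τ' : Bool) (e e' : G × G), e ∈ (if τ then S1.E else S0.E) →
        e' ∈ (if τ' then S1.E else S0.E) → (w = e.1 ∨ w = e.2) → (w = e'.1 ∨ w = e'.2) →
        (τ, e) = (τ', e') := by
      intro w τ τ' e e' he he' hw hw'
      cases τ <;> cases τ'
      · rw [S0.re_disj ((S0.mem_E e).1 he) ((S0.mem_E e').1 he') hw hw']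
      · exfalso
        exact S1.re_W ((S1.mem_E e').1 he') hw' (S0.re_tch ((S0.mem_E e).1 he) hw)
      · exfalso
        exact S1.re_W ((S1.mem_E e).1 he) hw (S0.re_tch ((S0.mem_E e').1 he') hw')
      · rw [S1.re_disj ((S1.mem_E e).1 he) ((S1.mem_E e').1 he') hw hw']
    intro τ τ' e e' he he' hne
    refine ⟨fun h => hne ?_, fun h => hne ?_, fun h => hne ?_, fun h => hne ?_⟩
    · exact hgen e.1 τ τ' e e' he he' (Or.inl rfl) (Or.inl h)
    · exact hgen e.1 τ τ' e e' he he' (Or.inl rfl) (Or.inr h)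
    · exact hgen e.2 τ τ' e e' he he' (Or.inr rfl) (Or.inl h)
    · exact hgen e.2 τ τ' e e' he he' (Or.inr rfl) (Or.inr h)
  · intro τ M hM y
    have hM0 : ∀ v, 0 ≤ M y v := fun v => (k7 N M hM.1).nn _ _
    cases τ
    · exact (S0.light (fun v => M y v) hM0).trans (S0.tw M hM y)
    · exact (S1.light (fun v => M y v) hM0).trans (S1.tw M hM y)
  · intro τ x y hxy hadm
    cases τ
    · exact S0.Rl_law hnum hsuml hrlaw hxy hadm
    · exact S1.Rl_law hnum hsuml hrlaw hxy hadm
  · intro τ x y hxy hadm z hz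
    cases τ
    · obtain ⟨s1, s2⟩ := S0.Rl_supp hnum hrlaw hxy hadm z hz
      exact ⟨fun j => (S0.mem_E _).2 (s1 j), s2⟩
    · obtain ⟨s1, s2⟩ := S1.Rl_supp hnum hrlaw hxy hadm z hz
      exact ⟨fun j => (S1.mem_E _).2 (s1 j), s2⟩
  · intro τ x y hxy hadm e
    cases τ
    · exact hr2 false _ S0 x y hxy hadm e
    · exact hr2 true _ S1 x y hxy hadm e
  · intro τ π p h1 h2 h3 h4 e
    cases τ
    · exact hr3 false _ S0 π p h1 h2 h3 h4 e
    · exact hr3 true _ S1 π p h1 h2 h3 h4 e

end Pool.Agent.Lib.MP_688fd0_co.TE.H9
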