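import Pool.Agent.Lib.MP_688fd0_co.TE.Iface4

/-! Module RES, first part: the R-edges of one stage. -/

namespace Pool.Agent.Lib.MP_688fd0_co.TE.H9

universe u v w

open Finset

variable {G : Type u} [Group G] [Fintype G] [DecidableEq G]

theorem adm_mono (c : Ctx G) (τ par : Bool) {N N' : ℕ} (h : N ≤ N') {x y : G}
    (hx : c.adm τ par N x y) : c.adm τ par N' x y := by
  unfold Ctx.adm at *
  split at hx
  · rename_i hp
    obtain ⟨j, h1, h2, h3⟩ := hx
    rw [if_pos hp]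
    exact ⟨j, h1, h2.trans h, h3⟩
  · rename_i hp
    obtain ⟨j, h1, h2, h3⟩ := hx
    rw [if_neg hp]
    exact ⟨j, h1, h2.trans h, h3⟩

theorem UM_ne {S : Finset G} {x y : G} (h : UM S x y ≠ 0) : x⁻¹ * y ∈ S := by
  by_contra hc
  exact h (by simp [UM, ind_not hc])

theorem WM_ne {B C : Finset G} {τ : Bool} {x y : G} (h : WM B C τ x y ≠ 0) :
    x⁻¹ * y ∈ Lt B C τ := by
  unfold WM at h
  unfold Lt
  cases τ with
  | false =>
    simp only [Bool.false_eq_true, if_false] at h ⊢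
    exact UM_ne h
  | true =>
    simp only [if_true] at h ⊢
    rw [Finset.mem_union]
    by_contra hc
    push Not at hc
    apply h
    have h1 : UM B x y = 0 := by simp [UM, ind_not hc.1]
    have h2 : UM C x y = 0 := by simp [UM, ind_not hc.2]
    simp [Matrix.smul_apply, Matrix.add_apply, h1, h2]

theorem cO_ne {B C : Finset G} {τ : Bool} {p : ℕ} {x y : G} (h : cO B C τ p x y ≠ 0) :
    x⁻¹ * y ∈ Lt B C τ := by
  unfold cO at h
  split at h
  · exact WM_ne h
  · have := UM_ne h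
    unfold Lt
    cases τ
    · simpa using this
    · simp [this]

/-- Output of one stage. -/
structure SO (c : Ctx G) (N : ℕ) (τ : Bool) (W : G → Prop) where
  M : LM G G (3 * c.k)
  ω : Fin c.T → Fld (3 * c.k) G G
  tc : G → G → Fin c.T
  res : c.IsRes τ (c.ζ τ) M
  pos : ∀ t j u e, val (ω t) j u = some e → e ∈ Lt c.B c.C τ
  low : ∀ x y, x ≠ y → c.adm τ true 9 x y → (9 / 10 : ℝ) * c.q τ ≤ M.fk 0 (3 * c.k) x y ∧
    M.fk 0 (3 * c.k) x y / 4 ≤ M.Zg ω W (c.X ^ 5 * c.q τ) (tc x y) x y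
  mass : ∀ t, M.massOK c.X (ω t)
  tw : ∀ M', c.TK N M' → ∀ y, ∑ t, M.tw (fun v => M' y v) (ω t) ≤ c.X * (2 * c.ζ τ)

theorem zeta_pos (c : Ctx G) (hX : (10 ^ 6 : ℝ) ≤ c.X) (τ : Bool) : 0 < c.ζ τ := by
  have : 0 < c.X := by linarith [show (0 : ℝ) < 10 ^ 6 by norm_num]
  unfold Ctx.ζ
  split <;> positivity

/-- One stage. -/
theorem stg (hnum : NUM_S.{u}) (hpks : PKS_S.{u}) (hresm : RESM_S.{u}) (hphr : PHR_S.{u})
    (hstage : STAGE_S.{u, u, u}) (c : Ctx G) (N : ℕ) (hN : N ≤ 40) (τ : Bool) (W : G → Prop)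
    (hW : c.Light 1 W (1 / c.X ^ 3)) : Nonempty (SO c N τ W) := by
  obtain ⟨n1, n2, n3, n4, n5, n6, n7, n8, n9, n10, n11, n12, n13, n14⟩ := hnum G c
  obtain ⟨k1, k2, k3, k4, k5, k6, k7, k8, k9, k10, k11, k12, k13, k14⟩ := hpks G c
  obtain ⟨M, hM, hNH, hSB, hfk⟩ := hresm G c τ
  have hX0 : 0 < c.X := by linarith [show (0 : ℝ) < 10 ^ 6 by norm_num]
  have hX1 : 1 ≤ c.X := by linarith [show (1 : ℝ) < 10 ^ 6 by norm_num]
  obtain ⟨m, f, hm, hf1, hf2⟩ := k14 N hN
  have hn1 : (1 : ℝ) ≤ Fintype.card G := by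
    exact_mod_cast Fintype.card_pos
  have hXn : c.X ≤ Fintype.card G := by
    have h1 : c.X ≤ c.X ^ 200000 := le_self_pow₀ hX1 (by norm_num)
    linarith
  have hz := zeta_pos c n1 τ
  have hph : ∀ x y, x ≠ y → c.adm τ true 9 x y → M.PH c.X (c.q τ) W x y := by
    intro x y hxy hadm
    exact hphr G c τ M (c.ζ τ) hz hM hfk W hW x y hxy (adm_mono c τ true (by norm_num) hadm)
  obtain ⟨ω, w1, w2, w3, w4⟩ := hstage G G (3 * c.k) Unit (fun _ => M) c.X (c.q τ) c.L0 c.r0 c.T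
    (fun _ => W) (fun _ x y => x ≠ y ∧ c.adm τ true 9 x y) M.P M.ex (fun _ => rfl) (fun _ => rfl)
    (by simpa using hn1) (fun _ => hNH) (fun _ => hSB) (fun _ x y h => hph x y h.1 h.2)
    (Fin m × G) (fun i v => f i.1 i.2 v) (fun _ => 1)
    (by
      rw [Fintype.card_prod, Fintype.card_fin]
      push_cast
      have h1 : (m : ℝ) * Fintype.card G ≤ (Fintype.card G : ℝ) * Fintype.card G := by
        apply mul_le_mul_of_nonneg_right (hm.trans hXn) (by linarith)
      have h2 : (Fintype.card G : ℝ) * Fintype.card G ≤ (Fintype.card G : ℝ) ^ 6 := by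
        rw [← sq]
        exact pow_le_pow_right₀ hn1 (by norm_num)
      linarith)
    (by
      intro i v
      refine ⟨(k7 N (f i.1) (hf1 i.1).1).nn _ _, fun _ => ?_⟩
      rw [hM.b]
      refine ((hf1 i.1).2 _ _).trans ?_
      apply div_le_div_of_nonneg_right _ n8.le
      exact one_le_pow₀ hX1)
    (by
      intro i
      exact ⟨le_of_eq ((k7 N (f i.1) (hf1 i.1).1).row _), le_rfl⟩)
    (by
      intro _
      rw [hM.pt]
      unfold Ctx.ζ
      have h3 : 1 / c.X ^ 4000 ≤ 1 / c.X ^ 3000 :=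
        one_div_le_one_div_of_le (by positivity) (pow_le_pow_right₀ hX1 (by norm_num))
      have h4 : 1 / c.X ^ 4000 ≤ 1 / c.X ^ 400 :=
        one_div_le_one_div_of_le (by positivity) (pow_le_pow_right₀ hX1 (by norm_num))
      have h5 : 0 < 1 / c.X ^ 3000 := by positivity
      have h6 : 0 < 1 / c.X ^ 400 := by positivity
      split <;> linarith)
  classical
  refine ⟨⟨M, ω, fun x y => if h : x ≠ y ∧ c.adm τ true 9 x y then (w2 () x y h).choose
    else ⟨0, c.hT1⟩, hM, ?_, ?_, fun t => w3 () t, ?_⟩⟩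
  · intro t j u e he
    have h1 := w1 t j u e he
    rw [hM.P] at h1
    have h2 := right_ne_zero_of_mul h1
    simpa using WM_ne h2
  · intro x y hxy hadm
    refine ⟨(hph x y hxy hadm).f0, ?_⟩
    rw [dif_pos ⟨hxy, hadm⟩]
    exact (w2 () x y ⟨hxy, hadm⟩).choose_spec
  · intro M' hM' y
    obtain ⟨i, rfl⟩ := hf2 M' hM'
    have := w4 (i, y) ()
    simp only [hM.pt, mul_one] at this
    exact this

end Pool.Agent.Lib.MP_688fd0_co.TE.H9
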