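import Pool.Agent.Lib.MP_688fd0_co.TE.H9.ResA

/-! Module RES, second part. -/

namespace Pool.Agent.Lib.MP_688fd0_co.TE.H9

universe u v w

open Finset

variable {G : Type u} [Group G] [Fintype G] [DecidableEq G]

/-- R-edges. -/
def SO.RE {c : Ctx G} {N : ℕ} {τ : Bool} {W : G → Prop} (S : SO c N τ W) (e : G × G) : Prop :=
  ∃ (t : Fin c.T) (j : ℕ), val (S.ω t) j e.1 = some (e.1⁻¹ * e.2) ∧
    ∀ w, (w = e.1 ∨ w = e.2) → ¬ W w ∧ (∀ t' < t, ¬ S.M.tch (S.ω t') w) ∧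
      ∀ j' u s, val (S.ω t) j' u = some s → (u = w ∨ u * s = w) →
        j' = j ∧ u = e.1 ∧ s = e.1⁻¹ * e.2

theorem SO.re_lett {c : Ctx G} {N : ℕ} {τ : Bool} {W : G → Prop} (S : SO c N τ W) {e : G × G}
    (h : S.RE e) : e.1⁻¹ * e.2 ∈ Lt c.B c.C τ := by
  obtain ⟨t, j, h1, _⟩ := h
  exact S.pos t j _ _ h1

theorem SO.re_tch {c : Ctx G} {N : ℕ} {τ : Bool} {W : G → Prop} (S : SO c N τ W) {e : G × G}
    (h : S.RE e) {w : G} (hw : w = e.1 ∨ w = e.2) : ∃ t, S.M.tch (S.ω t) w := by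
  obtain ⟨t, j, h1, _⟩ := h
  refine ⟨t, j, e.1, _, h1, ?_⟩
  rcases hw with rfl | rfl
  · exact Or.inl rfl
  · right; rw [S.res.ex]; simp

theorem SO.re_W {c : Ctx G} {N : ℕ} {τ : Bool} {W : G → Prop} (S : SO c N τ W) {e : G × G}
    (h : S.RE e) {w : G} (hw : w = e.1 ∨ w = e.2) : ¬ W w := by
  obtain ⟨t, j, h1, h2⟩ := h
  exact (h2 w hw).1

theorem SO.re_disj {c : Ctx G} {N : ℕ} {τ : Bool} {W : G → Prop} (S : SO c N τ W) {e e' : G × G}
    (h : S.RE e) (h' : S.RE e') {w : G} (hw : w = e.1 ∨ w = e.2) (hw' : w = e'.1 ∨ w = e'.2) :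
    e = e' := by
  obtain ⟨t, j, h1, h2⟩ := h
  obtain ⟨t', j', h1', h2'⟩ := h'
  have q1 : e.1 = w ∨ e.1 * (e.1⁻¹ * e.2) = w := by
    rcases hw with rfl | rfl
    · exact Or.inl rfl
    · right; simp
  have q2 : e'.1 = w ∨ e'.1 * (e'.1⁻¹ * e'.2) = w := by
    rcases hw' with rfl | rfl
    · exact Or.inl rfl
    · right; simp
  rcases lt_trichotomy t t' with hlt | heq | hgt
  · exfalso
    apply (h2' w hw').2.1 t hlt
    refine ⟨j, e.1, _, h1, ?_⟩
    rw [S.res.ex]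
    exact q1
  · subst heq
    obtain ⟨r1, r2, r3⟩ := (h2' w hw').2.2 j e.1 _ h1 q1
    rw [r2] at r3
    exact Prod.ext r2 (mul_left_cancel r3)
  · exfalso
    apply (h2 w hw).2.1 t' hgt
    refine ⟨j', e'.1, _, h1', ?_⟩
    rw [S.res.ex]
    exact q2

open scoped Classical in
/-- The set of R-edges. -/
noncomputable def SO.E {c : Ctx G} {N : ℕ} {τ : Bool} {W : G → Prop} (S : SO c N τ W) :
    Finset (G × G) := Finset.univ.filter S.RE

theorem SO.mem_E {c : Ctx G} {N : ℕ} {τ : Bool} {W : G → Prop} (S : SO c N τ W) (e : G × G) :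
    e ∈ S.E ↔ S.RE e := by
  classical
  simp [SO.E]

theorem SO.light {c : Ctx G} {N : ℕ} {τ : Bool} {W : G → Prop} (S : SO c N τ W)
    (h : G → ℝ) (hh : ∀ v, 0 ≤ h v) :
    ∑ e ∈ S.E, (h e.1 + h e.2) ≤ ∑ t, S.M.tw h (S.ω t) := by
  classical
  unfold LM.tw
  simp only [S.res.ex]
  have key : ∀ e ∈ S.E, (h e.1 + h e.2) ≤ ∑ t, ∑ j, ind (S.ω t j e.1 = some (e.1⁻¹ * e.2)) *
      (h e.1 + h e.2) := by
    intro e he
    rw [S.mem_E] at he
    obtain ⟨t, j, h1, _⟩ := he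
    unfold val at h1
    split at h1
    · rename_i hj
      have hnn : ∀ t j, 0 ≤ ind (S.ω t j e.1 = some (e.1⁻¹ * e.2)) * (h e.1 + h e.2) :=
        fun t j => mul_nonneg (ind_nonneg _) (add_nonneg (hh _) (hh _))
      calc (h e.1 + h e.2) = ind (S.ω t ⟨j, hj⟩ e.1 = some (e.1⁻¹ * e.2)) * (h e.1 + h e.2) := by
            rw [ind_of h1, one_mul]
        _ ≤ ∑ j, ind (S.ω t j e.1 = some (e.1⁻¹ * e.2)) * (h e.1 + h e.2) :=
            Finset.single_le_sum (f := fun j => ind (S.ω t j e.1 = some (e.1⁻¹ * e.2)) *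
              (h e.1 + h e.2)) (fun j _ => hnn t j) (Finset.mem_univ _)
        _ ≤ _ := Finset.single_le_sum (f := fun t => ∑ j, ind (S.ω t j e.1 = some (e.1⁻¹ * e.2)) *
              (h e.1 + h e.2)) (fun t _ => Finset.sum_nonneg (fun j _ => hnn t j))
              (Finset.mem_univ _)
    · exact absurd h1 (by simp)
  refine (Finset.sum_le_sum key).trans ?_
  have h2 : ∑ e ∈ S.E, ∑ t, ∑ j, ind (S.ω t j e.1 = some (e.1⁻¹ * e.2)) * (h e.1 + h e.2) ≤
      ∑ e : G × G, ∑ t, ∑ j, ind (S.ω t j e.1 = some (e.1⁻¹ * e.2)) * (h e.1 + h e.2) := by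
    apply Finset.sum_le_sum_of_subset_of_nonneg (Finset.subset_univ _)
    intro e _ _
    exact Finset.sum_nonneg fun t _ => Finset.sum_nonneg fun j _ =>
      mul_nonneg (ind_nonneg _) (add_nonneg (hh _) (hh _))
  refine h2.trans (le_of_eq ?_)
  rw [Finset.sum_comm]
  refine Finset.sum_congr rfl fun t _ => ?_
  rw [Finset.sum_comm]
  refine Finset.sum_congr rfl fun j _ => ?_
  rw [Fintype.sum_prod_type]
  refine Finset.sum_congr rfl fun u _ => ?_
  refine Fintype.sum_equiv (Equiv.mulLeft u⁻¹) _ _ fun x => ?_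
  simp

/-- From sites to edges. -/
def phi : G × G ≃ G × G where
  toFun s := (s.1, s.1 * s.2)
  invFun e := (e.1, e.1⁻¹ * e.2)
  left_inv s := by simp
  right_inv e := by simp

theorem sum_edges {n : ℕ} (hsuml : SUML_S.{u, 0}) (R : List (G × G) → ℝ)
    (F : (Fin n → G × G) → ℝ) (H : List (G × G) → ℝ)
    (hFH : ∀ z : Fin n → G × G, F (fun j => phi (z j)) = H (List.ofFn z)) :
    ∑ f : Fin n → G × G, R (List.ofFn (fun j => phi.symm (f j))) * F f =
      sumL n (fun z => R z * H z) := by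
  rw [(hsuml (G × G)).2.2.2.2.2.1]
  refine Fintype.sum_equiv (Equiv.piCongrRight fun _ => phi.symm) _ _ fun f => ?_
  have h1 : (Equiv.piCongrRight fun _ => phi.symm) f = fun j => phi.symm (f j) := rfl
  rw [h1, ← hFH]
  simp

end Pool.Agent.Lib.MP_688fd0_co.TE.H9
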